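import Pool.Agent.X145.McKay.Med

set_option autoImplicit false
open MeasureTheory ProbabilityTheory Filter Topology Set
open scoped ENNReal

/-!
# MP_aeb357_pr: monotonicity of the median of a McKay Type I law

For every `m > -1/2` and `φ > 0`, the median of
`Z_{m,c,φ} = φ (1 - 1/c) X₁ + φ (1 + 1/c) X₂` (`X₁, X₂` i.i.d. `Γ(m+1/2, 1)`) is strictly
increasing in `c ∈ (1, ∞)`.
-/

namespace Pool.Agent.Results.MP_aeb357_pr.MedianMonotone

open Pool.Agent.X145.McKay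

/-- The law of `Z_{m,c,φ}`. -/
noncomputable def lawZ (m c φ : ℝ) : Measure ℝ :=
  ((gammaMeasure (m + 1 / 2) 1).prod (gammaMeasure (m + 1 / 2) 1)).map
    (fun p : ℝ × ℝ => φ * (1 - 1 / c) * p.1 + φ * (1 + 1 / c) * p.2)

/-- The median `inf {x : P(X ≤ x) ≥ 1/2}` of a law on the line. -/
noncomputable def Med (μ : Measure ℝ) : ℝ := sInf {x : ℝ | 1 / 2 ≤ μ.real (Iic x)}

theorem law_pos (m c φ : ℝ) (hm : -1 / 2 < m) (hc : 1 < c) (hφ : 0 < φ) (x : ℝ) (hx : 0 < x) :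
    (lawZ m c φ).real (Iic x) = FF (m + 1 / 2) (x / φ) (1 / c) := by
  have hr : 0 < m + 1 / 2 := by linarith
  have hc0 : 0 < c := by linarith
  have ha : |1 / c| < 1 := by
    rw [abs_of_pos (by positivity), div_lt_one hc0]; exact hc
  have h := law_eq (m + 1 / 2) (x / φ) (1 / c) hr (by positivity) ha
  unfold lawZ
  rw [Measure.real, Measure.map_apply (by fun_prop) measurableSet_Iic]
  have e : (fun p : ℝ × ℝ => φ * (1 - 1 / c) * p.1 + φ * (1 + 1 / c) * p.2) ⁻¹' Iic x =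
      {p : ℝ × ℝ | (1 - 1 / c) * p.1 + (1 + 1 / c) * p.2 ≤ x / φ} := by
    ext p
    simp only [mem_preimage, mem_Iic, mem_ofPred_eq]
    rw [le_div_iff₀ hφ]
    constructor <;> intro h <;> linarith
  rw [e, h, ENNReal.toReal_ofReal]
  refine setIntegral_nonneg measurableSet_Ioo fun u hu => ?_
  exact mul_nonneg (mul_nonneg (Cr_pos _ hr).le (w_nonneg _ u hu).le)
    (GG_nonneg _ _ (div_pos (by positivity) (den_pos' _ u ha hu)).le)

theorem law_nonpos (m c φ : ℝ) (hm : -1 / 2 < m) (hc : 1 < c) (hφ : 0 < φ) (x : ℝ) (hx : x ≤ 0) :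
    (lawZ m c φ).real (Iic x) = 0 := by
  have hr : 0 < m + 1 / 2 := by linarith
  have hc0 : 0 < c := by linarith
  have ha1 : 1 / c < 1 := by rw [div_lt_one hc0]; exact hc
  have ha0 : 0 < 1 / c := by positivity
  unfold lawZ
  rw [Measure.real, Measure.map_apply (by fun_prop) measurableSet_Iic]
  have hS : MeasurableSet ((fun p : ℝ × ℝ => φ * (1 - 1 / c) * p.1 + φ * (1 + 1 / c) * p.2) ⁻¹' Iic x) :=
    (by fun_prop : Measurable fun p : ℝ × ℝ => φ * (1 - 1 / c) * p.1 + φ * (1 + 1 / c) * p.2) measurableSet_Iic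
  rw [← lintegral_indicator_one hS, main_formula _ hr _ (measurable_one.indicator hS)]
  have h0 : ∫⁻ u in Ioo (-1 : ℝ) 1, ∫⁻ R in Ioi (0 : ℝ),
        ENNReal.ofReal (Cr (m + 1 / 2) * (1 - u ^ 2) ^ (m + 1 / 2 - 1) *
          (R ^ (2 * (m + 1 / 2) - 1) * Real.exp (-R))) *
          ((fun p : ℝ × ℝ => φ * (1 - 1 / c) * p.1 + φ * (1 + 1 / c) * p.2) ⁻¹' Iic x).indicator 1
            (R * (1 - u) / 2, R * (1 + u) / 2) = ∫⁻ _u in Ioo (-1 : ℝ) 1, 0 := by
    refine setLIntegral_congr_fun measurableSet_Ioo fun u hu => ?_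
    have : ∫⁻ _R in Ioi (0 : ℝ), (0 : ℝ≥0∞) = 0 := by simp
    rw [← this]
    refine setLIntegral_congr_fun measurableSet_Ioi fun R hR => ?_
    simp only [mem_Ioi] at hR
    rw [indicator_of_notMem, mul_zero]
    simp only [mem_preimage, mem_Iic, not_le]
    refine lt_of_le_of_lt hx ?_
    have h1 : 0 < 1 - u := by linarith [hu.2]
    have h2 : 0 < 1 + u := by linarith [hu.1]
    have h3 : 0 < 1 - 1 / c := by linarith
    positivity
  rw [h0]
  simp

theorem result (m : ℝ) (hm : -1 / 2 < m) (φ : ℝ) (hφ : 0 < φ) :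
    StrictMonoOn (fun c => Med (lawZ m c φ)) (Ioi 1) := by
  have hr : 0 < m + 1 / 2 := by linarith
  set r := m + 1 / 2 with hrdef
  have hprob : ∀ c, IsProbabilityMeasure (lawZ m c φ) := fun c => by
    have := isProbabilityMeasure_gammaMeasure hr one_pos
    unfold lawZ
    exact Measure.isProbabilityMeasure_map (by fun_prop)
  intro c1 hc1 c2 hc2 hlt
  simp only [mem_Ioi] at hc1 hc2
  have ha1 : 1 / c1 ∈ Ico (0 : ℝ) 1 :=
    ⟨by positivity, by rw [div_lt_one (by linarith)]; exact hc1⟩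
  have ha2 : 1 / c2 ∈ Ico (0 : ℝ) 1 :=
    ⟨by positivity, by rw [div_lt_one (by linarith)]; exact hc2⟩
  have ha12 : 1 / c2 < 1 / c1 := one_div_lt_one_div_of_lt (by linarith) hlt
  have ha20 : 0 < 1 / c2 := by positivity
  have hbdd : ∀ c, 1 < c → BddBelow {x : ℝ | 1 / 2 ≤ (lawZ m c φ).real (Iic x)} := by
    intro c hc
    refine ⟨0, fun x hx => ?_⟩
    by_contra hcon
    push Not at hcon
    have hx' : 1 / 2 ≤ (lawZ m c φ).real (Iic x) := hx
    rw [law_nonpos m c φ hm hc hφ x hcon.le] at hx'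
    norm_num at hx'
  set M2 := sInf {x : ℝ | 1 / 2 ≤ (lawZ m c2 φ).real (Iic x)} with hM2
  -- the mean is to the right of the median
  have hmean : (2 * r) * φ ∈ {x : ℝ | 1 / 2 ≤ (lawZ m c2 φ).real (Iic x)} := by
    show 1 / 2 ≤ (lawZ m c2 φ).real (Iic ((2 * r) * φ))
    rw [law_pos m c2 φ hm hc2 hφ _ (by positivity), mul_div_assoc, div_self hφ.ne', mul_one]
    exact (FF_zero r hr).trans (FF_strictMono r (2 * r) hr (by positivity) le_rfl
      ⟨le_rfl, one_pos⟩ ha2 ha20).le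
  have hM2le : M2 ≤ (2 * r) * φ := csInf_le (hbdd c2 hc2) hmean
  have hM2mem : 1 / 2 ≤ (lawZ m c2 φ).real (Iic M2) := by
    have := hprob c2
    have hrc := (cdf (lawZ m c2 φ)).right_continuous M2
    have hrc2 : Tendsto (fun x => (lawZ m c2 φ).real (Iic x)) (𝓝[>] M2) (𝓝 ((lawZ m c2 φ).real (Iic M2))) := by
      have h1 : Tendsto (cdf (lawZ m c2 φ)) (𝓝[>] M2) (𝓝 (cdf (lawZ m c2 φ) M2)) :=
        hrc.tendsto.mono_left (nhdsWithin_mono _ Ioi_subset_Ici_self)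
      rw [cdf_eq_real] at h1
      refine h1.congr fun x => ?_
      rw [cdf_eq_real]
    refine ge_of_tendsto hrc2 ?_
    filter_upwards [self_mem_nhdsWithin] with x hx
    obtain ⟨y, hy, hyx⟩ := exists_lt_of_csInf_lt ⟨_, hmean⟩ (show M2 < x from hx)
    have hy' : 1 / 2 ≤ (lawZ m c2 φ).real (Iic y) := hy
    exact hy'.trans (measureReal_mono (Iic_subset_Iic.2 hyx.le))
  have hM2pos : 0 < M2 := by
    by_contra hcon
    push Not at hcon
    rw [law_nonpos m c2 φ hm hc2 hφ M2 hcon] at hM2mem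
    norm_num at hM2mem
  rw [law_pos m c2 φ hm hc2 hφ M2 hM2pos] at hM2mem
  have ht0 : 0 < M2 / φ := by positivity
  have ht2 : M2 / φ ≤ 2 * r := by rw [div_le_iff₀ hφ]; exact hM2le
  have hgt : 1 / 2 < FF r (M2 / φ) (1 / c1) :=
    lt_of_le_of_lt hM2mem (FF_strictMono r (M2 / φ) hr ht0 ht2 ha2 ha1 ha12)
  have hcont := FF_cont r (M2 / φ) (1 / c1) hr ht0 (by rw [abs_of_nonneg ha1.1]; exact ha1.2)
  have hev := hcont.eventually (lt_mem_nhds hgt)
  have hev2 : ∀ᶠ t in 𝓝[<] (M2 / φ), 1 / 2 < FF r t (1 / c1) := hev.filter_mono nhdsWithin_le_nhds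
  have hev3 : ∀ᶠ t in 𝓝[<] (M2 / φ), 0 < t := (lt_mem_nhds ht0).filter_mono nhdsWithin_le_nhds
  obtain ⟨t, ht, htpos, htlt⟩ := (hev2.and (hev3.and self_mem_nhdsWithin)).exists
  have hmem : φ * t ∈ {x : ℝ | 1 / 2 ≤ (lawZ m c1 φ).real (Iic x)} := by
    show 1 / 2 ≤ (lawZ m c1 φ).real (Iic (φ * t))
    rw [law_pos m c1 φ hm hc1 hφ _ (by positivity), mul_div_cancel_left₀ _ hφ.ne']
    exact ht.le
  show sInf _ < sInf _
  refine lt_of_le_of_lt (csInf_le (hbdd c1 hc1) hmem) ?_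
  have : t < M2 / φ := htlt
  rw [lt_div_iff₀ hφ] at this
  linarith

end Pool.Agent.Results.MP_aeb357_pr.MedianMonotone
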